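import Pool.Agent.W772.Tri5

set_option autoImplicit false
set_option maxHeartbeats 1000000

/-! The Kakeya inequality in tube form for families of boxes with few crossing places. -/

open MeasureTheory Set Filter Topology ENNReal NNReal Metric

namespace Q87.KX

open Pool.Agent.H810R3.Tub Pool.Agent.W772

variable {d : ℕ}

/-- the volume of the part of a box near a point -/
theorem vol_slab {N ρ : ℝ} (hN : 1 ≤ N) (hρ : 0 ≤ ρ) {e : Space d} {f : Fin d → Space d}
    (h : Orthonormal ℝ (Fin.cons e f : Fin (d + 1) → Space d)) (a p : Space d) :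
    volume {y | y ∈ box N e f a ∧ ‖y - p‖ ≤ ρ} ≤ ENNReal.ofReal (2 * ρ * N ^ d) := by
  have hN0 : 0 < N := by linarith
  set t : ℝ := inner ℝ e (p - a) with ht
  set lo : Fin (d + 1) → ℝ := Fin.cons (t - ρ) (fun _ => -(N / 2)) with hlo
  set hi : Fin (d + 1) → ℝ := Fin.cons (t + ρ) (fun _ => N / 2) with hhi
  set S : Set (Space d) := (fun y => WithLp.ofLp ((frame h).repr y)) ⁻¹'
      (Set.univ.pi fun i => Icc (lo i) (hi i)) with hS
  have hsub : {y | y ∈ box N e f a ∧ ‖y - p‖ ≤ ρ} ⊆ (fun y => y + (-a)) ⁻¹' S := by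
    rintro y ⟨hy, hyp⟩
    rw [mem_preimage, hS, mem_preimage, Set.mem_univ_pi]
    simp only [OrthonormalBasis.repr_apply_apply, frame_coe]
    rw [Fin.forall_fin_succ]
    simp only [hlo, hhi, Fin.cons_zero, Fin.cons_succ, mem_Icc]
    have e1 : y + (-a) = y - a := by abel
    rw [e1]
    constructor
    · have h1 : (inner ℝ e (y - a) : ℝ) = t + inner ℝ e (y - p) := by
        rw [ht, ← inner_add_right]
        congr 1
        abel
      have h2 : |(inner ℝ e (y - p) : ℝ)| ≤ ρ := by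
        refine (abs_real_inner_le_norm _ _).trans ?_
        rw [norm_e h, one_mul]
        exact hyp
      have h3 := abs_le.1 h2
      rw [h1]
      constructor <;> linarith
    · intro j
      exact abs_le.1 (hy.2 j)
  refine (measure_mono hsub).trans ?_
  rw [measure_preimage_add_right]
  have hmp : MeasurePreserving (fun y => WithLp.ofLp ((frame h).repr y)) volume volume :=
    (PiLp.volume_preserving_ofLp (Fin (d + 1))).comp (frame h).measurePreserving_repr
  rw [hS, hmp.measure_preimage (MeasurableSet.univ_pi fun i => measurableSet_Icc).nullMeasurableSet,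
    volume_pi_pi]
  simp only [Real.volume_Icc]
  rw [Fin.prod_univ_succ]
  simp only [hlo, hhi, Fin.cons_zero, Fin.cons_succ, Finset.prod_const, Finset.card_univ,
    Fintype.card_fin]
  have e3 : t + ρ - (t - ρ) = 2 * ρ := by ring
  have e4 : N / 2 - -(N / 2) = N := by ring
  rw [e3, e4, ← ENNReal.ofReal_pow (by linarith), ← ENNReal.ofReal_mul (by positivity)]

/-- separated points near a point -/
theorem packing {r : ℝ} (hr : 0 < r) {ι : Type} (ω : ι → Vec d)
    (hsep : ∀ i j, i ≠ j → r ≤ ‖ω i - ω j‖) (w : Vec d) (J : Finset ι) {φ : ℝ} (hφ : r ≤ φ)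
    (hJ : ∀ j ∈ J, ‖w - ω j‖ ≤ φ) : (J.card : ℝ) ≤ (3 * φ / r) ^ d := by
  classical
  have h1 : ∑ j ∈ J, volume (ball (ω j) (r / 2)) ≤ volume (ball w (φ + r / 2)) := by
    rw [← measure_biUnion_finset]
    · apply measure_mono
      intro x hx
      obtain ⟨j, hj, hx⟩ := mem_iUnion₂.1 hx
      rw [mem_ball, dist_eq_norm] at hx ⊢
      calc ‖x - w‖ ≤ ‖x - ω j‖ + ‖ω j - w‖ := norm_sub_le_norm_sub_add_norm_sub _ _ _
        _ < φ + r / 2 := by
            have := hJ j hj
            rw [norm_sub_rev] at this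
            linarith
    · intro i _ j _ hij
      apply ball_disjoint_ball
      rw [dist_eq_norm]
      have := hsep i j hij
      linarith
    · intro j _
      exact measurableSet_ball
  have hV0 : volume (ball (0 : Vec d) 1) ≠ 0 := (measure_ball_pos _ _ one_pos).ne'
  have hVt : volume (ball (0 : Vec d) 1) ≠ ∞ := measure_ball_lt_top.ne
  simp only [Measure.addHaar_ball_of_pos _ _ (show 0 < r / 2 by positivity)] at h1
  rw [Measure.addHaar_ball_of_pos _ _ (show 0 < φ + r / 2 by linarith), Finset.sum_const,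
    nsmul_eq_mul, ← mul_assoc, ENNReal.mul_le_mul_iff_left hV0 hVt, finrank_euclideanSpace_fin,
    ← ENNReal.ofReal_natCast, ← ENNReal.ofReal_mul (Nat.cast_nonneg _)] at h1
  have h2 : (J.card : ℝ) * (r / 2) ^ d ≤ (φ + r / 2) ^ d := by
    rw [ENNReal.ofReal_le_ofReal_iff (pow_nonneg (by linarith) _)] at h1
    exact h1
  have h3 : (φ + r / 2) ^ d ≤ (3 * φ / r) ^ d * (r / 2) ^ d := by
    rw [← mul_pow]
    apply pow_le_pow_left₀ (by linarith)
    have : 3 * φ / r * (r / 2) = 3 / 2 * φ := by field_simp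
    rw [this]
    linarith
  have h4 : 0 < (r / 2) ^ d := by positivity
  exact le_of_mul_le_mul_right (h2.trans h3) h4

/-- The points `p ∈ P i`, with the weights `κ i p`, are crossing places of the boxes: each common
point `y` of the box number `i` and another box number `j` has, for some `p ∈ P i`, a distance at most
`κ i p * N / ‖ω i - ω j‖` from `p`. -/
def Crossing {ι : Type} (N : ℝ) (ω : ι → Vec d) (f : ι → Fin d → Space d)
    (a : ι → Space d) (P : ι → Finset (Space d)) (κ : ι → Space d → ℝ) : Prop :=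
  ∀ i j, i ≠ j → ∀ y ∈ box N (nor (ω i)) (f i) (a i) ∩ box N (nor (ω j)) (f j) (a j),
    ∃ p ∈ P i, ‖y - p‖ * ‖ω i - ω j‖ ≤ κ i p * N

open Classical in
theorem Fb_card {ι : Type} [Fintype ι] (N : ℝ) (ω : ι → Vec d) (f : ι → Fin d → Space d)
    (a : ι → Space d) (y : Space d) : Fb N ω f a y =
      ENNReal.ofReal ((Finset.univ.filter fun j => y ∈ box N (nor (ω j)) (f j) (a j)).card : ℝ) := by
  unfold Fb
  rw [ENNReal.ofReal_natCast, Finset.card_eq_sum_ones]
  push_cast
  rw [Finset.sum_filter]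
  refine Finset.sum_congr rfl fun j _ => ?_
  by_cases h : y ∈ box N (nor (ω j)) (f j) (a j)
  · rw [indicator_of_mem h, if_pos h]
  · rw [indicator_of_notMem h, if_neg h]

theorem level {N σ : ℝ} (hN : 1 ≤ N) (hσ : 0 < σ) {ι : Type} [Fintype ι] {ω : ι → Vec d}
    (hsep : ∀ i j, i ≠ j → σ / N ≤ ‖ω i - ω j‖) (f : ι → Fin d → Space d)
    (a : ι → Space d) (P : ι → Finset (Space d)) (κ : ι → Space d → ℝ) (hP : Crossing N ω f a P κ)
    (i : ι) (hκ : ∀ p ∈ P i, 0 ≤ κ i p) {u : ℝ} (hu : 3 ≤ u) :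
    {y | y ∈ box N (nor (ω i)) (f i) (a i) ∧ ENNReal.ofReal (u ^ d) < Fb N ω f a y} ⊆
      ⋃ p ∈ P i, {y | y ∈ box N (nor (ω i)) (f i) (a i) ∧ ‖y - p‖ ≤ 3 * κ i p * N ^ 2 / (σ * u)} := by
  classical
  have hN0 : 0 < N := by linarith
  have hu0 : 0 < u := by linarith
  rintro y ⟨hyi, hy⟩
  by_contra hcon
  rw [mem_iUnion₂] at hcon
  push Not at hcon
  set φ : ℝ := σ * u / (3 * N) with hφ
  have hφ0 : 0 < φ := by positivity
  have hφr : σ / N ≤ φ := by
    rw [hφ, div_le_div_iff₀ hN0 (by positivity)]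
    nlinarith [mul_pos hσ hN0]
  set J := Finset.univ.filter fun j => y ∈ box N (nor (ω j)) (f j) (a j) with hJ
  have hJφ : ∀ j ∈ J, ‖ω i - ω j‖ ≤ φ := by
    intro j hj
    by_cases hij : i = j
    · rw [hij, sub_self, norm_zero]
      exact hφ0.le
    · by_contra h1
      push Not at h1
      obtain ⟨p, hp, h2⟩ := hP i j hij y ⟨hyi, (Finset.mem_filter.1 hj).2⟩
      have h3 : ¬ (‖y - p‖ ≤ 3 * κ i p * N ^ 2 / (σ * u)) := fun h => hcon p hp ⟨hyi, h⟩
      push Not at h3
      have hk := hκ p hp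
      have h4 : κ i p * N = 3 * κ i p * N ^ 2 / (σ * u) * φ := by
        rw [hφ]
        field_simp
      have h5 : 0 ≤ 3 * κ i p * N ^ 2 / (σ * u) := by positivity
      have h6 : 3 * κ i p * N ^ 2 / (σ * u) * φ < ‖y - p‖ * ‖ω i - ω j‖ :=
        mul_lt_mul h3 h1.le hφ0 (norm_nonneg _)
      linarith
  have hr : 0 < σ / N := by positivity
  have h7 := packing hr ω hsep (ω i) J hφr hJφ
  have h8 : 3 * φ / (σ / N) = u := by
    rw [hφ]
    field_simp
  rw [h8] at h7
  rw [Fb_card, ← hJ] at hy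
  exact absurd (ENNReal.ofReal_le_ofReal h7) (not_le.2 hy)

theorem dyadic (m : ℕ) {g : ℝ} (hg : g ≤ 3 * 2 ^ m) :
    g ≤ 3 + ∑ k ∈ Finset.range m, (if 3 * (2 : ℝ) ^ k < g then 3 * (2 : ℝ) ^ k else 0) := by
  induction m with
  | zero => simpa using hg
  | succ m ih =>
    rw [Finset.sum_range_succ]
    rcases le_or_gt g (3 * 2 ^ m) with h | h
    · have h1 := ih h
      have h2 : (0 : ℝ) ≤ (if 3 * (2 : ℝ) ^ m < g then 3 * (2 : ℝ) ^ m else 0) := by
        split_ifs <;> positivity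
      linarith
    · rw [if_pos h]
      have h3 : ∑ k ∈ Finset.range m, (if 3 * (2 : ℝ) ^ k < g then 3 * (2 : ℝ) ^ k else 0) =
          ∑ k ∈ Finset.range m, 3 * (2 : ℝ) ^ k := by
        refine Finset.sum_congr rfl fun k hk => ?_
        rw [if_pos]
        refine lt_of_le_of_lt ?_ h
        have : (2 : ℝ) ^ k ≤ 2 ^ m := pow_le_pow_right₀ (by norm_num) (Finset.mem_range.1 hk).le
        linarith
      rw [h3, ← Finset.mul_sum, geom_sum_eq (by norm_num)]
      rw [pow_succ] at hg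
      have : ((2 : ℝ) ^ m - 1) / (2 - 1) = 2 ^ m - 1 := by norm_num
      rw [this]
      linarith

theorem int_box (hd : 1 ≤ d) {N σ : ℝ} (hN : 1 ≤ N) (hσ : 0 < σ) (hσ1 : σ ≤ 1) {ι : Type} [Fintype ι]
    {ω : ι → Vec d} (hω : ∀ i, ‖ω i‖ ≤ 1)
    (hsep : ∀ i j, i ≠ j → σ / N ≤ ‖ω i - ω j‖) (f : ι → Fin d → Space d)
    (hf : ∀ i, Orthonormal ℝ (Fin.cons (nor (ω i)) (f i) : Fin (d + 1) → Space d))
    (a : ι → Space d) (P : ι → Finset (Space d)) (κ : ι → Space d → ℝ) (hP : Crossing N ω f a P κ)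
    (i : ι) (hκ : ∀ p ∈ P i, 0 ≤ κ i p) {m : ℕ} (hm : 6 * N / σ ≤ 3 * 2 ^ m) :
    ∫⁻ y in box N (nor (ω i)) (f i) (a i), Fb N ω f a y ^ (1 / (d : ℝ)) ≤
      ENNReal.ofReal (N ^ (d + 2) * (3 + 6 * m / σ * ∑ p ∈ P i, κ i p)) := by
  classical
  have hN0 : 0 < N := by linarith
  have hd0 : (0 : ℝ) < d := by exact_mod_cast hd
  have hd1 : (d : ℝ) ≠ 0 := hd0.ne'
  set B := box N (nor (ω i)) (f i) (a i) with hB
  set L : ℕ → Set (Space d) := fun k =>
    {y | y ∈ B ∧ ENNReal.ofReal ((3 * 2 ^ k) ^ d) < Fb N ω f a y} with hL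
  have hBm : MeasurableSet B := (box_closed _ _ _ _).measurableSet
  have hLm : ∀ k, MeasurableSet (L k) := fun k =>
    hBm.inter (measurableSet_lt measurable_const (Fb_measurable N ω f a))
  have hr : 0 < σ / N := by positivity
  -- pointwise
  have h1 : ∀ y ∈ B, Fb N ω f a y ^ (1 / (d : ℝ)) ≤
      ENNReal.ofReal 3 + ∑ k ∈ Finset.range m,
        (L k).indicator (fun _ => ENNReal.ofReal (3 * (2 : ℝ) ^ k)) y := by
    intro y hy
    set J := Finset.univ.filter fun j => y ∈ box N (nor (ω j)) (f j) (a j) with hJ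
    set c : ℝ := (J.card : ℝ) with hc
    have hc0 : 0 ≤ c := Nat.cast_nonneg _
    have hF : Fb N ω f a y = ENNReal.ofReal c := Fb_card N ω f a y
    set g : ℝ := c ^ (1 / (d : ℝ)) with hg
    have hg0 : 0 ≤ g := Real.rpow_nonneg hc0 _
    have hgd : g ^ d = c := by
      rw [hg, ← Real.rpow_natCast, ← Real.rpow_mul hc0, one_div_mul_cancel hd1, Real.rpow_one]
    have hcle : c ≤ (6 * N / σ) ^ d := by
      have h2 := packing hr ω hsep (ω i) J (φ := 2) (by
        rw [div_le_iff₀ hN0]; linarith) (fun j _ => by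
          calc ‖ω i - ω j‖ ≤ ‖ω i‖ + ‖ω j‖ := norm_sub_le _ _
            _ ≤ 2 := by linarith [hω i, hω j])
      have h3 : 3 * 2 / (σ / N) = 6 * N / σ := by
        field_simp
        norm_num
      rw [h3] at h2
      exact h2
    have hgle : g ≤ 6 * N / σ := by
      have h4 : g ^ d ≤ (6 * N / σ) ^ d := by rw [hgd]; exact hcle
      exact le_of_pow_le_pow_left₀ (by omega) (by positivity) h4
    have h5 := dyadic m (hgle.trans hm)
    rw [hF, ENNReal.ofReal_rpow_of_nonneg hc0 (by positivity), ← hg]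
    refine (ENNReal.ofReal_le_ofReal h5).trans ?_
    rw [ENNReal.ofReal_add (by norm_num) (Finset.sum_nonneg fun k _ => by split_ifs <;> positivity),
      ENNReal.ofReal_sum_of_nonneg (fun k _ => by split_ifs <;> positivity)]
    refine add_le_add le_rfl (Finset.sum_le_sum fun k _ => ?_)
    by_cases hk : 3 * (2 : ℝ) ^ k < g
    · rw [if_pos hk, indicator_of_mem]
      refine ⟨hy, ?_⟩
      rw [hF, ENNReal.ofReal_lt_ofReal_iff_of_nonneg (by positivity), ← hgd]
      exact pow_lt_pow_left₀ hk (by positivity) (by omega)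
    · rw [if_neg hk, ENNReal.ofReal_zero]
      exact zero_le
  have h2 : ∀ k, volume (L k) ≤
      ENNReal.ofReal (2 * N ^ (d + 2) / (σ * 2 ^ k) * ∑ p ∈ P i, κ i p) := by
    intro k
    have hu : (3 : ℝ) ≤ 3 * 2 ^ k := by
      have : (1 : ℝ) ≤ 2 ^ k := one_le_pow₀ (by norm_num)
      linarith
    refine (measure_mono (level hN hσ hsep f a P κ hP i hκ hu)).trans
      ((measure_biUnion_finset_le _ _).trans ?_)
    calc ∑ p ∈ P i, volume {y | y ∈ box N (nor (ω i)) (f i) (a i) ∧
            ‖y - p‖ ≤ 3 * κ i p * N ^ 2 / (σ * (3 * 2 ^ k))}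
        ≤ ∑ p ∈ P i, ENNReal.ofReal (2 * (3 * κ i p * N ^ 2 / (σ * (3 * 2 ^ k))) * N ^ d) := by
          refine Finset.sum_le_sum fun p hp => vol_slab hN ?_ (hf i) (a i) p
          have := hκ p hp
          positivity
      _ = ENNReal.ofReal (∑ p ∈ P i, 2 * (3 * κ i p * N ^ 2 / (σ * (3 * 2 ^ k))) * N ^ d) := by
          rw [ENNReal.ofReal_sum_of_nonneg]
          intro p hp
          have := hκ p hp
          positivity
      _ = _ := by
          congr 1
          rw [Finset.mul_sum]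
          refine Finset.sum_congr rfl fun p _ => ?_
          rw [pow_add]
          field_simp
  have hS : 0 ≤ ∑ p ∈ P i, κ i p := Finset.sum_nonneg hκ
  calc ∫⁻ y in B, Fb N ω f a y ^ (1 / (d : ℝ))
      ≤ ∫⁻ y in B, (ENNReal.ofReal 3 + ∑ k ∈ Finset.range m,
        (L k).indicator (fun _ => ENNReal.ofReal (3 * (2 : ℝ) ^ k)) y) :=
        setLIntegral_mono' hBm h1
    _ = ENNReal.ofReal 3 * volume B + ∑ k ∈ Finset.range m,
          ENNReal.ofReal (3 * (2 : ℝ) ^ k) * volume (L k) := by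
        rw [lintegral_add_left measurable_const, setLIntegral_const,
          lintegral_finsetSum _ fun k _ => measurable_const.indicator (hLm k)]
        congr 1
        refine Finset.sum_congr rfl fun k _ => ?_
        rw [lintegral_indicator_const (hLm k), Measure.restrict_apply (hLm k)]
        congr 2
        exact inter_eq_left.2 fun y hy => hy.1
    _ ≤ ENNReal.ofReal 3 * ENNReal.ofReal (N ^ (d + 2)) + ∑ k ∈ Finset.range m,
          ENNReal.ofReal (3 * (2 : ℝ) ^ k) *
            ENNReal.ofReal (2 * N ^ (d + 2) / (σ * 2 ^ k) * ∑ p ∈ P i, κ i p) := by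
        rw [hB, vol_box hN (hf i)]
        gcongr with k _
        exact h2 k
    _ = ENNReal.ofReal 3 * ENNReal.ofReal (N ^ (d + 2)) + ∑ _k ∈ Finset.range m,
          ENNReal.ofReal (N ^ (d + 2) * (6 / σ * ∑ p ∈ P i, κ i p)) := by
        congr 1
        refine Finset.sum_congr rfl fun k _ => ?_
        rw [← ENNReal.ofReal_mul (by positivity)]
        congr 1
        field_simp
        ring
    _ = _ := by
        rw [Finset.sum_const, Finset.card_range, nsmul_eq_mul, ← ENNReal.ofReal_natCast,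
          ← ENNReal.ofReal_mul (by positivity), ← ENNReal.ofReal_mul (by positivity),
          ← ENNReal.ofReal_add (by positivity) (by positivity)]
        congr 1
        ring

/-- the integral bound -/
theorem cross_int (hd : 1 ≤ d) {σ : ℝ} (hσ : 0 < σ) (hσ1 : σ ≤ 1) : ∃ E : ℝ, 0 < E ∧
    ∀ (N : ℝ), 1 ≤ N → ∀ (ι : Type) [Fintype ι] (ω : ι → Vec d), (∀ i, ‖ω i‖ ≤ 1) →
    (∀ i j, i ≠ j → σ / N ≤ ‖ω i - ω j‖) → ∀ (f : ι → Fin d → Space d),
    (∀ i, Orthonormal ℝ (Fin.cons (nor (ω i)) (f i) : Fin (d + 1) → Space d)) →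
    ∀ (a : ι → Space d) (P : ι → Finset (Space d)) (κ : ι → Space d → ℝ), Crossing N ω f a P κ →
    (∀ i, ∀ p ∈ P i, 0 ≤ κ i p) → ∀ M : ℝ, 0 ≤ M →
    ∑ i, ∑ p ∈ P i, κ i p ≤ M * Fintype.card ι →
    ∫⁻ y, Fb N ω f a y ^ (1 + 1 / (d : ℝ)) ≤
      ENNReal.ofReal (E * ((1 + M) * (1 + Real.log N)) * N ^ (2 * (d + 1))) := by
  have hd0 : (0 : ℝ) < d := by exact_mod_cast hd
  have hl2 : 0 < Real.log 2 := Real.log_pos (by norm_num)
  set c₁ : ℝ := 1 + (1 + Real.log (2 / σ)) / Real.log 2 with hc₁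
  have hls : 0 ≤ Real.log (2 / σ) := Real.log_nonneg (by rw [le_div_iff₀ hσ]; linarith)
  have hc₁1 : 1 ≤ c₁ := by
    rw [hc₁]
    have : 0 ≤ (1 + Real.log (2 / σ)) / Real.log 2 := by positivity
    linarith
  refine ⟨(3 / σ) ^ d * (3 + 6 * c₁ / σ), by positivity, ?_⟩
  intro N hN ι _ ω hω hsep f hf a P κ hP hκ M hM hsum
  have hN0 : 0 < N := by linarith
  have hlN : 0 ≤ Real.log N := Real.log_nonneg hN
  have hr : 0 < σ / N := by positivity
  set m : ℕ := ⌈Real.logb 2 (2 * N / σ)⌉₊ with hm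
  have h2Nσ : 1 ≤ 2 * N / σ := by
    rw [le_div_iff₀ hσ]; linarith
  have hm1 : 6 * N / σ ≤ 3 * 2 ^ m := by
    have h1 : Real.logb 2 (2 * N / σ) ≤ m := Nat.le_ceil _
    have h2 : 2 * N / σ ≤ 2 ^ m := by
      rw [← Real.rpow_natCast]
      rw [← Real.logb_le_iff_le_rpow (by norm_num) (by positivity)]
      exact h1
    have h3 : 6 * N / σ = 3 * (2 * N / σ) := by ring
    rw [h3]
    linarith
  have hm2 : (m : ℝ) ≤ c₁ * (1 + Real.log N) := by
    have h1 : (m : ℝ) < Real.logb 2 (2 * N / σ) + 1 :=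
      Nat.ceil_lt_add_one (Real.logb_nonneg (by norm_num) h2Nσ)
    have h2 : Real.logb 2 (2 * N / σ) = (Real.log (2 / σ) + Real.log N) / Real.log 2 := by
      rw [Real.logb, ← Real.log_mul (by positivity) hN0.ne']
      congr 2
      ring
    rw [h2] at h1
    have h3 : (Real.log (2 / σ) + Real.log N) / Real.log 2 ≤
        (1 + Real.log (2 / σ)) / Real.log 2 * (1 + Real.log N) := by
      rw [div_mul_eq_mul_div]
      apply div_le_div_of_nonneg_right _ hl2.le
      nlinarith [mul_nonneg hls hlN]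
    rw [hc₁]
    nlinarith
  have hcard : (Fintype.card ι : ℝ) ≤ (3 / σ) ^ d * N ^ d := by
    have h1 := packing hr ω hsep 0 Finset.univ (φ := 1) (by
      rw [div_le_iff₀ hN0]; linarith) (fun j _ => by
        rw [zero_sub, norm_neg]; exact hω j)
    rw [Finset.card_univ] at h1
    refine h1.trans (le_of_eq ?_)
    rw [← mul_pow]
    congr 1
    field_simp
  have hFm := Fb_measurable N ω f a
  have hBm : ∀ i, MeasurableSet (box N (nor (ω i)) (f i) (a i)) := fun i =>
    (box_closed _ _ _ _).measurableSet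
  calc ∫⁻ y, Fb N ω f a y ^ (1 + 1 / (d : ℝ))
      = ∫⁻ y, ∑ i, (box N (nor (ω i)) (f i) (a i)).indicator
          (fun y => Fb N ω f a y ^ (1 / (d : ℝ))) y := by
        refine lintegral_congr fun y => ?_
        rw [ENNReal.rpow_add_of_nonneg _ _ zero_le_one (by positivity), ENNReal.rpow_one]
        conv_lhs => rw [Fb]
        rw [Finset.sum_mul]
        refine Finset.sum_congr rfl fun i _ => ?_
        by_cases h : y ∈ box N (nor (ω i)) (f i) (a i)
        · rw [indicator_of_mem h, indicator_of_mem h, one_mul]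
          rfl
        · rw [indicator_of_notMem h, indicator_of_notMem h, zero_mul]
    _ = ∑ i, ∫⁻ y in box N (nor (ω i)) (f i) (a i), Fb N ω f a y ^ (1 / (d : ℝ)) := by
        rw [lintegral_finsetSum _ fun i _ => (hFm.pow_const _).indicator (hBm i)]
        refine Finset.sum_congr rfl fun i _ => ?_
        rw [lintegral_indicator (hBm i)]
    _ ≤ ∑ i, ENNReal.ofReal (N ^ (d + 2) * (3 + 6 * m / σ * ∑ p ∈ P i, κ i p)) :=
        Finset.sum_le_sum fun i _ => int_box hd hN hσ hσ1 hω hsep f hf a P κ hP i (hκ i) hm1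
    _ = ENNReal.ofReal (∑ i, N ^ (d + 2) * (3 + 6 * m / σ * ∑ p ∈ P i, κ i p)) := by
        rw [ENNReal.ofReal_sum_of_nonneg]
        intro i _
        have := Finset.sum_nonneg (hκ i)
        positivity
    _ ≤ _ := by
        apply ENNReal.ofReal_le_ofReal
        have e1 : ∑ i, N ^ (d + 2) * (3 + 6 * m / σ * ∑ p ∈ P i, κ i p) =
            N ^ (d + 2) * (3 * Fintype.card ι + 6 * m / σ * ∑ i, ∑ p ∈ P i, κ i p) := by
          rw [← Finset.mul_sum, Finset.sum_add_distrib, ← Finset.mul_sum, Finset.sum_const,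
            Finset.card_univ, nsmul_eq_mul]
          ring
        rw [e1]
        have h0 : (0 : ℝ) ≤ Fintype.card ι := Nat.cast_nonneg _
        calc N ^ (d + 2) * (3 * Fintype.card ι + 6 * m / σ * ∑ i, ∑ p ∈ P i, κ i p)
            ≤ N ^ (d + 2) * (3 * Fintype.card ι + 6 * (c₁ * (1 + Real.log N)) / σ *
              (M * Fintype.card ι)) := by
              gcongr
              exact Finset.sum_nonneg fun i _ => Finset.sum_nonneg (hκ i)
          _ = N ^ (d + 2) * (Fintype.card ι * (3 + 6 * c₁ / σ * (M * (1 + Real.log N)))) := by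
              ring
          _ ≤ N ^ (d + 2) * (((3 / σ) ^ d * N ^ d) *
              ((3 + 6 * c₁ / σ) * ((1 + M) * (1 + Real.log N)))) := by
              have h1 : 3 + 6 * c₁ / σ * (M * (1 + Real.log N)) ≤
                  (3 + 6 * c₁ / σ) * ((1 + M) * (1 + Real.log N)) := by
                have h2 : 0 ≤ 6 * c₁ / σ := by positivity
                have h3 : 0 ≤ M * (1 + Real.log N) := by positivity
                nlinarith [mul_nonneg h2 hlN]
              gcongr
          _ = _ := by ring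

end Q87.KX
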