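import Pool.Agent.Q85.ZR.R
import Pool.Agent.Y254.Geo

set_option autoImplicit false

/-! From the Kakeya maximal function to sums over tubes. -/

open MeasureTheory Set Metric
open scoped ENNReal NNReal Pointwise

namespace Q87.KX

open Q85.ZE (Sp tube)
open Q85.ZR (kakeyaMax maxInt cvol cvol_pos tube_vol_ge)

theorem tube_shift {n : ℕ} (ℓ r : ℝ) (c v e : Sp n) :
    tube ℓ r (c + v) e = (fun x => x + (-v)) ⁻¹' tube ℓ r c e := by
  ext x
  simp only [tube, mem_setOf_eq, mem_preimage]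
  have : x - (c + v) = x + -v - c := by abel
  rw [this]

theorem tube_quarter {n : ℕ} {δ : ℝ} (h0 : 0 < δ) (h1 : δ ≤ 1) (a e : Sp (n + 1)) (he : ‖e‖ = 1) :
    ENNReal.ofReal (cvol (n + 1) / 2 * δ ^ n) ≤ volume (tube (1 / 4) δ a e) := by
  have hee : inner ℝ e e = (1 : ℝ) := by
    rw [real_inner_self_eq_norm_sq, he]
    norm_num
  have hsub : tube (1 / 2) δ a e ⊆ tube (1 / 4) δ (a + (1 / 4 : ℝ) • e) e ∪
      tube (1 / 4) δ (a + (-(1 / 4 : ℝ)) • e) e := by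
    intro x hx
    obtain ⟨hx1, hx2⟩ := hx
    have key : ∀ t : ℝ, |inner ℝ e (x - a) - t| ≤ 1 / 4 → x ∈ tube (1 / 4) δ (a + t • e) e := by
      intro t ht
      have e1 : x - (a + t • e) = (x - a) - t • e := by abel
      have e2 : (inner ℝ e ((x - a) - t • e) : ℝ) = inner ℝ e (x - a) - t := by
        rw [inner_sub_right, inner_smul_right, hee, mul_one]
      refine ⟨by rw [e1, e2]; exact ht, ?_⟩
      rw [e1, e2]
      have e3 : (x - a) - t • e - (inner ℝ e (x - a) - t : ℝ) • e =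
          (x - a) - (inner ℝ e (x - a) : ℝ) • e := by
        rw [sub_smul]
        abel
      rw [e3]
      exact hx2
    have h2 := abs_le.1 hx1
    rcases le_total 0 (inner ℝ e (x - a) : ℝ) with h | h
    · left
      apply key
      rw [abs_le]
      constructor <;> linarith
    · right
      apply key
      rw [abs_le]
      constructor <;> linarith
  have h3 := (tube_vol_ge h0 h1 a e he).trans ((measure_mono hsub).trans (measure_union_le _ _))
  rw [tube_shift, tube_shift, measure_preimage_add_right, measure_preimage_add_right, ← two_mul] at h3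
  have h4 : ENNReal.ofReal (cvol (n + 1) * δ ^ n) =
      2 * ENNReal.ofReal (cvol (n + 1) / 2 * δ ^ n) := by
    rw [← ENNReal.ofReal_ofNat 2, ← ENNReal.ofReal_mul (by norm_num)]
    congr 1
    ring
  rw [h4, ENNReal.mul_le_mul_iff_right (by norm_num) (by norm_num)] at h3
  exact h3

/-- the measure of a cap -/
theorem cap_ge (n : ℕ) : ∃ c : ℝ, 0 < c ∧ ∀ ρ : ℝ, 0 < ρ → ρ ≤ 1 → ∀ e₀ : Sp (n + 1), ‖e₀‖ = 1 →
    ENNReal.ofReal (c * ρ ^ n) ≤ (volume : Measure (Sp (n + 1))).toSphere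
      {e : sphere (0 : Sp (n + 1)) 1 | ‖(e : Sp (n + 1)) - e₀‖ < ρ} := by
  have hcv := cvol_pos (n + 1)
  refine ⟨cvol (n + 1) / 2 * (1 / 16) ^ n, by positivity, ?_⟩
  intro ρ hρ hρ1 e₀ he
  set A := {e : sphere (0 : Sp (n + 1)) 1 | ‖(e : Sp (n + 1)) - e₀‖ < ρ} with hA
  have hAm : MeasurableSet A := by
    apply IsOpen.measurableSet
    exact isOpen_lt (by fun_prop) continuous_const
  have hee : inner ℝ e₀ e₀ = (1 : ℝ) := by
    rw [real_inner_self_eq_norm_sq, he]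
    norm_num
  rw [Measure.toSphere_apply' _ hAm]
  have hsub : tube (1 / 4) (ρ / 16) ((1 / 2 : ℝ) • e₀) e₀ ⊆
      Ioo (0 : ℝ) 1 • ((↑) '' A : Set (Sp (n + 1))) := by
    rintro x ⟨hx1, hx2⟩
    set s : ℝ := inner ℝ e₀ x with hs
    have e1 : (inner ℝ e₀ (x - (1 / 2 : ℝ) • e₀) : ℝ) = s - 1 / 2 := by
      rw [inner_sub_right, inner_smul_right, hee, mul_one]
    rw [e1] at hx1 hx2
    have e2 : x - (1 / 2 : ℝ) • e₀ - (s - 1 / 2) • e₀ = x - s • e₀ := by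
      rw [sub_smul]
      abel
    rw [e2] at hx2
    have h1 := abs_le.1 hx1
    have hs1 : 1 / 4 ≤ s := by linarith
    have hs2 : s ≤ 3 / 4 := by linarith
    have hsn : ‖s • e₀‖ = s := by
      rw [norm_smul, he, mul_one, Real.norm_eq_abs, abs_of_nonneg (by linarith)]
    have h2 : |‖x‖ - s| ≤ ρ / 16 := by
      have := abs_norm_sub_norm_le x (s • e₀)
      rw [hsn] at this
      exact this.trans hx2
    have h3 := abs_le.1 h2
    have hx0 : 1 / 8 ≤ ‖x‖ := by linarith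
    have hxl : ‖x‖ < 1 := by linarith
    have hxpos : 0 < ‖x‖ := by linarith
    refine mem_smul.2 ⟨‖x‖, ⟨hxpos, hxl⟩, ‖x‖⁻¹ • x, ?_, ?_⟩
    · refine ⟨⟨‖x‖⁻¹ • x, ?_⟩, ?_, rfl⟩
      · rw [mem_sphere_zero_iff_norm, norm_smul, norm_inv, norm_norm, inv_mul_cancel₀ hxpos.ne']
      · show ‖‖x‖⁻¹ • x - e₀‖ < ρ
        have e3 : ‖x‖⁻¹ • x - e₀ = ‖x‖⁻¹ • (x - ‖x‖ • e₀) := by
          rw [smul_sub, smul_smul, inv_mul_cancel₀ hxpos.ne', one_smul]
        have h4 : ‖x - ‖x‖ • e₀‖ ≤ ρ / 8 := by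
          have e4 : x - ‖x‖ • e₀ = (x - s • e₀) - (‖x‖ - s) • e₀ := by
            rw [sub_smul]
            abel
          rw [e4]
          refine (norm_sub_le _ _).trans ?_
          rw [norm_smul, he, mul_one, Real.norm_eq_abs]
          linarith
        rw [e3, norm_smul, norm_inv, norm_norm, inv_mul_lt_iff₀ hxpos]
        nlinarith
    · rw [smul_smul, mul_inv_cancel₀ hxpos.ne', one_smul]
  have h5 := (tube_quarter (δ := ρ / 16) (by positivity) (by linarith) ((1 / 2 : ℝ) • e₀) e₀ he).trans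
    (measure_mono hsub)
  have h6 : (1 : ℝ≥0∞) ≤ (Module.finrank ℝ (Sp (n + 1)) : ℝ≥0∞) := by
    rw [finrank_euclideanSpace_fin]
    exact_mod_cast Nat.le_add_left 1 n
  calc ENNReal.ofReal (cvol (n + 1) / 2 * (1 / 16) ^ n * ρ ^ n)
      = ENNReal.ofReal (cvol (n + 1) / 2 * (ρ / 16) ^ n) := by
        congr 1
        rw [div_pow ρ, one_div, inv_pow]
        ring
    _ ≤ 1 * volume (Ioo (0 : ℝ) 1 • ((↑) '' A : Set (Sp (n + 1)))) := by
        rw [one_mul]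
        exact h5
    _ ≤ _ := mul_le_mul' h6 le_rfl

theorem tube_le (n : ℕ) : ∃ C : ℝ, 0 < C ∧ ∀ δ : ℝ, 0 < δ → δ < 1 → ∀ (a e : Sp (n + 1)), ‖e‖ = 1 →
    volume (tube (1 / 2) δ a e) ≤ ENNReal.ofReal (C * δ ^ n) := by
  have hCv := Pool.Agent.Y254.Cv_pos (n + 1)
  refine ⟨Pool.Agent.Y254.Cv (n + 1) * 2, by positivity, ?_⟩
  intro δ h0 h1 a e he
  have h2 : tube (1 / 2) δ a e = Pool.Agent.Y254.tube δ a e := by
    ext x
    simp only [tube, Pool.Agent.Y254.tube, mem_setOf_eq, real_inner_comm e]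
  rw [h2]
  have h3 := Pool.Agent.Y254.vol_tube (n := n + 1) (by omega) (a := a) he h0 h1
  rwa [Nat.add_sub_cancel] at h3

theorem holder_sphere {n : ℕ} (hn : 1 ≤ n) {α : Type*} [MeasurableSpace α] (μ : Measure α)
    (g : α → ℝ≥0∞) : ∫⁻ x, g x ∂μ ≤
      (∫⁻ x, g x ^ (n + 1) ∂μ) ^ (1 / ((n : ℝ) + 1)) * μ univ ^ ((n : ℝ) / ((n : ℝ) + 1)) := by
  have hn0 : (0 : ℝ) < n := by exact_mod_cast hn
  obtain ⟨h, hm, hle, heq⟩ := exists_measurable_le_lintegral_eq μ g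
  have hpq : ((n : ℝ) + 1).HolderConjugate (((n : ℝ) + 1) / n) := by
    rw [Real.holderConjugate_iff]
    refine ⟨by linarith, ?_⟩
    field_simp
    ring
  have h1 := ENNReal.lintegral_mul_le_Lp_mul_Lq μ hpq hm.aemeasurable
    (aemeasurable_const (b := (1 : ℝ≥0∞)))
  simp only [Pi.mul_apply, mul_one, ENNReal.one_rpow, lintegral_const, one_mul] at h1
  rw [heq]
  refine h1.trans ?_
  have e1 : (1 : ℝ) / (((n : ℝ) + 1) / n) = (n : ℝ) / ((n : ℝ) + 1) := one_div_div _ _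
  rw [e1]
  refine mul_le_mul' (ENNReal.rpow_le_rpow (lintegral_mono fun x => ?_) (by positivity)) le_rfl
  rw [← Nat.cast_add_one, ENNReal.rpow_natCast]
  exact pow_le_pow_left' (hle x) _

/-- the sum over separated directions of the integrals over tubes -/
theorem dual (n : ℕ) (hn : 1 ≤ n) : ∃ C : ℝ, 0 < C ∧ ∀ δ ρ : ℝ, 0 < ρ → ρ ≤ 1 → 0 < δ → δ < 1 →
    ∀ (ι : Type) [Fintype ι] (e : ι → Sp (n + 1)), (∀ i, ‖e i‖ = 1) →
    (∀ i j, i ≠ j → 2 * ρ ≤ ‖e i - e j‖) → ∀ (T : ι → Set (Sp (n + 1))) (f : Sp (n + 1) → ℝ≥0∞),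
    (∀ i, ∀ w : Sp (n + 1), ‖w‖ = 1 → ‖w - e i‖ < ρ → ∃ c, T i ⊆ tube (1 / 2) δ c w) →
    ∑ i, ∫⁻ x in T i, f x ≤
      ENNReal.ofReal (C * (δ / ρ) ^ n) * (maxInt f δ) ^ (1 / ((n : ℝ) + 1)) := by
  obtain ⟨c, hc, hcap⟩ := cap_ge n
  obtain ⟨C₁, hC₁, htube⟩ := tube_le n
  set σ := (volume : Measure (Sp (n + 1))).toSphere with hσ
  set S : ℝ≥0∞ := σ univ ^ ((n : ℝ) / ((n : ℝ) + 1)) with hS
  have hSt : S ≠ ∞ := ENNReal.rpow_ne_top_of_nonneg (by positivity) (measure_ne_top _ _)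
  refine ⟨(C₁ / c) * (S.toReal + 1), by positivity, ?_⟩
  intro δ ρ hρ hρ1 hδ hδ1 ι _ e he hsep T f hT
  set cap : ι → Set (sphere (0 : Sp (n + 1)) 1) := fun i =>
    {w | ‖(w : Sp (n + 1)) - e i‖ < ρ} with hcapdef
  have hcm : ∀ i, MeasurableSet (cap i) := fun i =>
    (isOpen_lt (by fun_prop) continuous_const).measurableSet
  have h1 : ∀ i, ∀ w ∈ cap i, ∫⁻ x in T i, f x ≤
      ENNReal.ofReal (C₁ * δ ^ n) * kakeyaMax f δ (w : Sp (n + 1)) := by
    intro i w hw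
    have hw1 : ‖(w : Sp (n + 1))‖ = 1 := norm_eq_of_mem_sphere w
    obtain ⟨z, hz⟩ := hT i w hw1 hw
    set V := volume (tube (1 / 2) δ z (w : Sp (n + 1))) with hV
    have hV0 : V ≠ 0 := by
      have h2 := tube_vol_ge hδ hδ1.le z (w : Sp (n + 1)) hw1
      have h3 : 0 < ENNReal.ofReal (cvol (n + 1) * δ ^ n) := by
        rw [ENNReal.ofReal_pos]
        have := cvol_pos (n + 1)
        positivity
      exact (lt_of_lt_of_le h3 h2).ne'
    have hVt : V ≠ ∞ := (lt_of_le_of_lt (htube δ hδ hδ1 z _ hw1) ENNReal.ofReal_lt_top).ne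
    calc ∫⁻ x in T i, f x ≤ ∫⁻ x in tube (1 / 2) δ z (w : Sp (n + 1)), f x :=
          lintegral_mono_set hz
      _ = V * (V⁻¹ * ∫⁻ x in tube (1 / 2) δ z (w : Sp (n + 1)), f x) := by
          rw [← mul_assoc, ENNReal.mul_inv_cancel hV0 hVt, one_mul]
      _ ≤ ENNReal.ofReal (C₁ * δ ^ n) * kakeyaMax f δ (w : Sp (n + 1)) := by
          refine mul_le_mul' (htube δ hδ hδ1 z _ hw1) ?_
          unfold kakeyaMax
          exact le_iSup (fun a => (volume (tube (1 / 2) δ a (w : Sp (n + 1))))⁻¹ *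
            ∫⁻ x in tube (1 / 2) δ a (w : Sp (n + 1)), f x) z
  have h2 : ∀ i, ENNReal.ofReal (c * ρ ^ n) * ∫⁻ x in T i, f x ≤
      ENNReal.ofReal (C₁ * δ ^ n) * ∫⁻ w in cap i, kakeyaMax f δ (w : Sp (n + 1)) ∂σ := by
    intro i
    calc ENNReal.ofReal (c * ρ ^ n) * ∫⁻ x in T i, f x
        ≤ σ (cap i) * ∫⁻ x in T i, f x := mul_le_mul' (hcap ρ hρ hρ1 (e i) (he i)) le_rfl
      _ = ∫⁻ _ in cap i, (∫⁻ x in T i, f x) ∂σ := by
          rw [setLIntegral_const, mul_comm]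
      _ ≤ ∫⁻ w in cap i, ENNReal.ofReal (C₁ * δ ^ n) * kakeyaMax f δ (w : Sp (n + 1)) ∂σ :=
          setLIntegral_mono' (hcm i) (h1 i)
      _ = _ := lintegral_const_mul' _ _ ENNReal.ofReal_ne_top
  have hdisj : ∀ i j, i ≠ j → Disjoint (cap i) (cap j) := by
    intro i j hij
    rw [Set.disjoint_left]
    intro w hwi hwj
    have h3 := hsep i j hij
    have h4 : e i - e j = (w - e j) - (w - e i) := by abel
    rw [h4] at h3
    have h5 := norm_sub_le ((w : Sp (n + 1)) - e j) ((w : Sp (n + 1)) - e i)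
    simp only [hcapdef, mem_setOf_eq] at hwi hwj
    linarith
  have h3 : ENNReal.ofReal (c * ρ ^ n) * ∑ i, ∫⁻ x in T i, f x ≤
      ENNReal.ofReal (C₁ * δ ^ n) * ∫⁻ w, kakeyaMax f δ (w : Sp (n + 1)) ∂σ := by
    rw [Finset.mul_sum]
    refine (Finset.sum_le_sum fun i _ => h2 i).trans ?_
    rw [← Finset.mul_sum]
    refine mul_le_mul' le_rfl ?_
    rw [← lintegral_biUnion_finset (fun i _ j _ hij => hdisj i j hij) (fun i _ => hcm i)]
    exact setLIntegral_le_lintegral _ _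
  have h4 := holder_sphere hn σ (fun w : sphere (0 : Sp (n + 1)) 1 => kakeyaMax f δ (w : Sp (n + 1)))
  have hcr : 0 < c * ρ ^ n := by positivity
  have hc0 : ENNReal.ofReal (c * ρ ^ n) ≠ 0 := (ENNReal.ofReal_pos.2 hcr).ne'
  rw [← ENNReal.mul_le_mul_iff_right hc0 ENNReal.ofReal_ne_top]
  refine h3.trans ((mul_le_mul' le_rfl h4).trans ?_)
  have h5 : S ≤ ENNReal.ofReal (S.toReal + 1) := by
    rw [ENNReal.ofReal_add ENNReal.toReal_nonneg zero_le_one, ENNReal.ofReal_toReal hSt]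
    exact le_self_add
  calc ENNReal.ofReal (C₁ * δ ^ n) * ((∫⁻ x : sphere (0 : Sp (n + 1)) 1,
        kakeyaMax f δ (x : Sp (n + 1)) ^ (n + 1) ∂σ) ^ (1 / ((n : ℝ) + 1)) * S)
      ≤ ENNReal.ofReal (C₁ * δ ^ n) * ((maxInt f δ) ^ (1 / ((n : ℝ) + 1)) *
          ENNReal.ofReal (S.toReal + 1)) := by
        unfold maxInt
        gcongr
    _ = (ENNReal.ofReal (C₁ * δ ^ n) * ENNReal.ofReal (S.toReal + 1)) *
          (maxInt f δ) ^ (1 / ((n : ℝ) + 1)) := by ring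
    _ = (ENNReal.ofReal (c * ρ ^ n) * ENNReal.ofReal (C₁ / c * (S.toReal + 1) * (δ / ρ) ^ n)) *
          (maxInt f δ) ^ (1 / ((n : ℝ) + 1)) := by
        congr 1
        have hS0 : 0 ≤ S.toReal := ENNReal.toReal_nonneg
        rw [← ENNReal.ofReal_mul (by positivity), ← ENNReal.ofReal_mul (by positivity)]
        congr 1
        rw [div_pow]
        field_simp
    _ = _ := by ring

end Q87.KX
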