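import Pool.Agent.Q87.KX.Dual
import Pool.Agent.W772.Tri5
import Pool.Agent.W193.AC.INT

set_option autoImplicit false
set_option maxHeartbeats 1000000

/-! Boxes and functions of low multiscale rank. -/

open MeasureTheory Set Metric
open scoped ENNReal NNReal

namespace Q87.KX

open Q85.ZE (Sp tube idx cells cell)
open Q85.ZR (kakeyaMax maxInt cellFun LowRank RankLE)
open Pool.Agent.H810R3.Tub Pool.Agent.W772

variable {d : ℕ}

/-- the distance from a line -/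
theorem dist_line {E : Type*} [NormedAddCommGroup E] [InnerProductSpace ℝ E] {w : E} (hw : ‖w‖ = 1)
    (x : E) (t : ℝ) : ‖x - (inner ℝ w x : ℝ) • w‖ ≤ ‖x - t • w‖ := by
  have hww : (inner ℝ w w : ℝ) = 1 := by
    rw [real_inner_self_eq_norm_sq, hw]; norm_num
  have key : ∀ s : ℝ, ‖x - s • w‖ ^ 2 = ‖x‖ ^ 2 - 2 * s * inner ℝ w x + s ^ 2 := by
    intro s
    rw [@norm_sub_sq_real, norm_smul, inner_smul_right, real_inner_comm w x, hw, Real.norm_eq_abs,
      mul_one, sq_abs]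
    ring
  apply le_of_sq_le_sq _ (norm_nonneg _)
  rw [key, key]
  nlinarith [sq_nonneg (t - inner ℝ w x)]

theorem box_tube (hd : 1 ≤ d) {N c δ ρ : ℝ} (hN : 1 ≤ N) (hc : c = 1 / (2 * d * N ^ 2))
    (hδ : 1 / N ≤ δ) (hδ1 : δ ≤ 1) (hρ0 : 0 < ρ) (hρ : ρ ≤ δ / 8) (hρ1 : ρ ≤ 1 / 8)
    (U : Space d ≃ₗᵢ[ℝ] Sp (d + 1)) {e : Space d} {f : Fin d → Space d}
    (h : Orthonormal ℝ (Fin.cons e f : Fin (d + 1) → Space d)) (a : Space d)
    (w : Sp (d + 1)) (hw : ‖w‖ = 1) (hwe : ‖w - U e‖ < ρ) (y : Space d) (hy : y ∈ box N e f a) :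
    c • U y ∈ tube (1 / 2) δ (c • U a) w := by
  have hd0 : (0 : ℝ) < d := by exact_mod_cast hd
  have hd1 : (1 : ℝ) ≤ d := by exact_mod_cast hd
  have hN0 : 0 < N := by linarith
  have hc0 : 0 < c := by rw [hc]; positivity
  obtain ⟨z, hz⟩ : ∃ z : Space d, z = y - a := ⟨_, rfl⟩
  have hy1 : |(inner ℝ e z : ℝ)| ≤ N ^ 2 / 2 := by
    rw [hz]; exact hy.1
  have hy2 : ‖z - (inner ℝ e z : ℝ) • e‖ ≤ d * N / 2 := by
    rw [hz]; exact box_perp hN h hy
  set q : Sp (d + 1) := c • U z with hq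
  have e1 : c • U y - c • U a = q := by
    rw [hq, hz, map_sub, smul_sub]
  set t : ℝ := c * inner ℝ e z with ht
  have hin : (inner ℝ (U e) q : ℝ) = t := by
    rw [hq, inner_smul_right, LinearIsometryEquiv.inner_map_map]
  have ht4 : |t| ≤ 1 / 4 := by
    rw [ht, abs_mul, abs_of_pos hc0]
    calc c * |inner ℝ e z| ≤ c * (N ^ 2 / 2) := mul_le_mul_of_nonneg_left hy1 hc0.le
      _ = 1 / (4 * d) := by
          rw [hc]
          field_simp
          norm_num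
      _ ≤ 1 / 4 := by
          apply one_div_le_one_div_of_le (by norm_num)
          linarith
  have hperp : ‖q - t • U e‖ ≤ δ / 4 := by
    have e2 : q - t • U e = c • U (z - (inner ℝ e z : ℝ) • e) := by
      rw [hq, ht, map_sub, map_smul, smul_sub, smul_smul]
    rw [e2, norm_smul, LinearIsometryEquiv.norm_map, Real.norm_eq_abs, abs_of_pos hc0]
    calc c * ‖z - (inner ℝ e z : ℝ) • e‖ ≤ c * (d * N / 2) :=
          mul_le_mul_of_nonneg_left hy2 hc0.le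
      _ = 1 / N / 4 := by
          rw [hc]
          field_simp
          norm_num
      _ ≤ δ / 4 := by linarith
  have hUe : ‖U e‖ = 1 := by rw [LinearIsometryEquiv.norm_map, norm_e h]
  have hqn : ‖q‖ ≤ 1 / 2 := by
    calc ‖q‖ = ‖(q - t • U e) + t • U e‖ := by congr 1; abel
      _ ≤ ‖q - t • U e‖ + ‖t • U e‖ := norm_add_le _ _
      _ ≤ δ / 4 + 1 / 4 := by
          refine add_le_add hperp ?_
          rw [norm_smul, hUe, mul_one, Real.norm_eq_abs]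
          exact ht4
      _ ≤ 1 / 2 := by linarith
  constructor
  · rw [e1]
    have e3 : (inner ℝ w q : ℝ) = t + inner ℝ (w - U e) q := by
      rw [inner_sub_left, hin]; ring
    rw [e3]
    have h2 := abs_real_inner_le_norm (w - U e) q
    calc |t + inner ℝ (w - U e) q| ≤ |t| + |inner ℝ (w - U e) q| := abs_add_le _ _
      _ ≤ 1 / 4 + ρ * (1 / 2) := by
          refine add_le_add ht4 (h2.trans ?_)
          exact mul_le_mul hwe.le hqn (norm_nonneg _) hρ0.le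
      _ ≤ 1 / 2 := by linarith
  · rw [e1]
    refine (dist_line hw q t).trans ?_
    calc ‖q - t • w‖ = ‖(q - t • U e) + t • (U e - w)‖ := by
          congr 1
          rw [smul_sub]; abel
      _ ≤ ‖q - t • U e‖ + ‖t • (U e - w)‖ := norm_add_le _ _
      _ ≤ δ / 4 + 1 / 4 * ρ := by
          refine add_le_add hperp ?_
          rw [norm_smul, Real.norm_eq_abs, norm_sub_rev]
          exact mul_le_mul ht4 hwe.le (norm_nonneg _) (by norm_num)
      _ ≤ δ := by linarith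

theorem cellFun_scale {c δ s : ℝ} (hc : 0 < c) (hδ : 0 < δ) (hs : s = δ / c) {n : ℕ}
    (φ : (Fin n → ℤ) → ℝ) (x : Sp n) : cellFun s φ x = cellFun δ φ (c • x) := by
  unfold cellFun
  congr 2
  funext i
  unfold idx
  congr 1
  rw [hs]
  show x i / (δ / c) = (c • x) i / δ
  rw [PiLp.smul_apply, smul_eq_mul]
  field_simp

theorem lint_iso (U : Space d ≃ₗᵢ[ℝ] Sp (d + 1)) (g : Sp (d + 1) → ℝ≥0∞) :
    ∫⁻ y, g (U y) = ∫⁻ x, g x := by
  have h1 : MeasurePreserving U volume volume := U.measurePreserving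
  exact h1.lintegral_comp_emb U.toHomeomorph.measurableEmbedding g

theorem lint_scale {c : ℝ} (hc : 0 < c) (g : Sp (d + 1) → ℝ≥0∞) :
    ∫⁻ x, g x = ENNReal.ofReal (c ^ (d + 1)) * ∫⁻ x, g (c • x) := by
  rw [lint_smul volume hc.ne' g, finrank_euclideanSpace_fin, abs_of_pos (by positivity), ← mul_assoc,
    ← ENNReal.ofReal_mul (by positivity), mul_inv_cancel₀ (by positivity), ENNReal.ofReal_one, one_mul]

theorem boxes_int (d b : ℕ) (hd : 1 ≤ d) (hb : 2 ≤ b) {ε : ℝ} (hε : 0 < ε) {σ D : ℝ} (hσ : 0 < σ)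
    (hσ1 : σ ≤ 1) (hD : 1 ≤ D) :
    ∃ (C : ℝ) (A : ℕ), 0 < C ∧ ∀ k : ℕ, 1 ≤ k → ∀ N : ℝ, (b : ℝ) ^ k ≤ N → N ≤ D * (b : ℝ) ^ k →
    ∀ (ι : Type) [Fintype ι] (ω : ι → Vec d), (∀ i, ‖ω i‖ ≤ 1) →
    (∀ i j, i ≠ j → σ / N ≤ ‖ω i - ω j‖) → ∀ (f : ι → Fin d → Space d),
    (∀ i, Orthonormal ℝ (Fin.cons (nor (ω i)) (f i) : Fin (d + 1) → Space d)) →
    ∀ (a : ι → Space d) (U : Space d ≃ₗᵢ[ℝ] Sp (d + 1)) (r : ℕ), 1 ≤ r →
    ∀ φ : (Fin (d + 1) → ℤ) → ℝ, LowRank b k r φ →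
    ∑ i, ∫⁻ y in box N (nor (ω i)) (f i) (a i), cellFun (2 * d * N ^ 2 / (b : ℝ) ^ k) φ (U y) ≤
      ENNReal.ofReal (C * N ^ (2 * d)) * (ENNReal.ofReal (N ^ ε * (r : ℝ) ^ A) *
        ∫⁻ x, cellFun (2 * d * N ^ 2 / (b : ℝ) ^ k) φ x ^ (d + 1)) ^ (1 / ((d : ℝ) + 1)) := by
  obtain ⟨C₁, hC₁, hdual⟩ := dual d hd
  obtain ⟨C₂, A, hC₂, hmain⟩ := Q85.ZR.main d b hd hb hε
  have hd0 : (0 : ℝ) < d := by exact_mod_cast hd
  have hd1 : (1 : ℝ) ≤ d := by exact_mod_cast hd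
  refine ⟨C₁ * (8 * D / σ) ^ d * C₂ ^ (1 / ((d : ℝ) + 1)) * (2 * d) ^ d, A, by positivity, ?_⟩
  intro k hk N hN1 hN2 ι _ ω hω hsep f hf a U r hr φ hφ
  have hb1 : (1 : ℝ) < b := by exact_mod_cast (by omega : 1 < b)
  have hbk : (1 : ℝ) < (b : ℝ) ^ k := one_lt_pow₀ hb1 (by omega)
  have hbk0 : (0 : ℝ) < (b : ℝ) ^ k := by linarith
  have hN : 1 ≤ N := by linarith
  have hN0 : 0 < N := by linarith
  set c : ℝ := 1 / (2 * d * N ^ 2) with hc
  have hc0 : 0 < c := by positivity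
  set δ : ℝ := ((b : ℝ) ^ k)⁻¹ with hδ
  have hδ0 : 0 < δ := by positivity
  have hδ1 : δ < 1 := inv_lt_one_of_one_lt₀ hbk
  have hδN : 1 / N ≤ δ := by
    rw [hδ, ← one_div]
    exact one_div_le_one_div_of_le hbk0 hN1
  set s : ℝ := 2 * d * N ^ 2 / (b : ℝ) ^ k with hs
  have hsc : s = δ / c := by
    rw [hs, hδ, hc]
    field_simp
  set ρ : ℝ := σ / (8 * N) with hρ
  have hρ0 : 0 < ρ := by positivity
  have hρδ : ρ ≤ δ / 8 := by
    have : ρ = σ * (1 / N) / 8 := by rw [hρ]; field_simp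
    rw [this]
    have h1 : σ * (1 / N) ≤ 1 * δ := mul_le_mul hσ1 hδN (by positivity) zero_le_one
    linarith
  have hρ1 : ρ ≤ 1 / 8 := by linarith
  set F : Sp (d + 1) → ℝ≥0∞ := cellFun δ φ with hF
  set T : ι → Set (Sp (d + 1)) := fun i =>
    {z | U.symm (c⁻¹ • z) ∈ box N (nor (ω i)) (f i) (a i)} with hT
  have hTm : ∀ i, MeasurableSet (T i) := by
    intro i
    have h1 : Continuous fun z : Sp (d + 1) => U.symm (c⁻¹ • z) :=
      U.symm.continuous.comp (continuous_const_smul _)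
    exact ((box_closed _ _ _ _).preimage h1).measurableSet
  have h1 := hdual δ ρ hρ0 (by linarith) hδ0 hδ1 ι (fun i => U (nor (ω i)))
    (fun i => by rw [LinearIsometryEquiv.norm_map, norm_e (hf i)])
    (fun i j hij => by
      rw [← map_sub, LinearIsometryEquiv.norm_map]
      have h3 := Pool.Agent.W193.AC.nor_sep (ω i) (ω j) (hω i) (hω j)
      have h4 := hsep i j hij
      have h5 : 2 * ρ = σ / N / 4 := by rw [hρ]; field_simp; norm_num
      rw [h5]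
      linarith) T F (by
      intro i w hw hwe
      refine ⟨c • U (a i), ?_⟩
      intro z hz
      have h3 := box_tube hd hN hc hδN hδ1.le hρ0 hρδ hρ1 U (hf i) (a i) w hw hwe _ hz
      rwa [LinearIsometryEquiv.apply_symm_apply, smul_smul, mul_inv_cancel₀ hc0.ne', one_smul] at h3)
  have h2 : maxInt F δ ≤ ENNReal.ofReal (C₂ * δ ^ (-ε) * (r : ℝ) ^ A) * ∫⁻ x, F x ^ (d + 1) :=
    hmain k hk δ rfl r hr φ hφ.1 hφ.2
  set J : ℝ≥0∞ := ∫⁻ x, cellFun s φ x ^ (d + 1) with hJ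
  have h3 : ∫⁻ x, F x ^ (d + 1) = ENNReal.ofReal (c ^ (d + 1)) * J := by
    rw [lint_scale hc0 (fun x => F x ^ (d + 1))]
    congr 1
    refine lintegral_congr fun x => ?_
    rw [cellFun_scale hc0 hδ0 hsc]
  have h4 : ∀ i, ∫⁻ y in box N (nor (ω i)) (f i) (a i), cellFun s φ (U y) =
      ENNReal.ofReal ((c ^ (d + 1))⁻¹) * ∫⁻ z in T i, F z := by
    intro i
    have hBm : MeasurableSet (box N (nor (ω i)) (f i) (a i)) := (box_closed _ _ _ _).measurableSet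
    rw [← lintegral_indicator hBm, ← lintegral_indicator (hTm i)]
    rw [lint_scale hc0 ((T i).indicator F), ← mul_assoc, ← ENNReal.ofReal_mul (by positivity),
      inv_mul_cancel₀ (by positivity), ENNReal.ofReal_one, one_mul]
    rw [← lint_iso U (fun x => (T i).indicator F (c • x))]
    refine lintegral_congr fun y => ?_
    have h5 : c • U y ∈ T i ↔ y ∈ box N (nor (ω i)) (f i) (a i) := by
      show U.symm (c⁻¹ • c • U y) ∈ box N (nor (ω i)) (f i) (a i) ↔ _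
      rw [smul_smul, inv_mul_cancel₀ hc0.ne', one_smul, LinearIsometryEquiv.symm_apply_apply]
    by_cases h6 : y ∈ box N (nor (ω i)) (f i) (a i)
    · rw [indicator_of_mem h6, indicator_of_mem (h5.2 h6), cellFun_scale hc0 hδ0 hsc]
    · rw [indicator_of_notMem h6, indicator_of_notMem (fun h => h6 (h5.1 h))]
  rw [Finset.sum_congr rfl fun i _ => h4 i, ← Finset.mul_sum]
  have hrpos : (0 : ℝ) < r := by exact_mod_cast hr
  have hdp : 0 < (d : ℝ) + 1 := by linarith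
  have hδρ : (δ / ρ) ^ d ≤ (8 * D / σ) ^ d := by
    apply pow_le_pow_left₀ (by positivity)
    have h5 : δ / ρ = 8 * N / (σ * (b : ℝ) ^ k) := by
      rw [hδ, hρ]
      field_simp
    rw [h5, div_le_div_iff₀ (by positivity) hσ]
    nlinarith [mul_le_mul_of_nonneg_right hN2 hσ.le]
  have hδε : δ ^ (-ε) ≤ N ^ ε := by
    rw [hδ, Real.inv_rpow hbk0.le, ← Real.rpow_neg hbk0.le, neg_neg]
    exact Real.rpow_le_rpow hbk0.le hN1 hε.le
  have h6 : maxInt F δ ≤ ENNReal.ofReal (C₂ * c ^ (d + 1)) *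
      (ENNReal.ofReal (N ^ ε * (r : ℝ) ^ A) * J) := by
    refine h2.trans ?_
    rw [h3]
    calc ENNReal.ofReal (C₂ * δ ^ (-ε) * (r : ℝ) ^ A) * (ENNReal.ofReal (c ^ (d + 1)) * J)
        ≤ ENNReal.ofReal (C₂ * N ^ ε * (r : ℝ) ^ A) * (ENNReal.ofReal (c ^ (d + 1)) * J) := by
          gcongr
      _ = _ := by
          rw [← mul_assoc, ← mul_assoc, ← ENNReal.ofReal_mul (by positivity),
            ← ENNReal.ofReal_mul (by positivity)]
          congr 2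
          ring
  set Z : ℝ≥0∞ := ENNReal.ofReal (N ^ ε * (r : ℝ) ^ A) * J with hZ
  calc ENNReal.ofReal ((c ^ (d + 1))⁻¹) * ∑ i, ∫⁻ z in T i, F z
      ≤ ENNReal.ofReal ((c ^ (d + 1))⁻¹) * (ENNReal.ofReal (C₁ * (δ / ρ) ^ d) *
          (maxInt F δ) ^ (1 / ((d : ℝ) + 1))) := mul_le_mul' le_rfl h1
    _ ≤ ENNReal.ofReal ((c ^ (d + 1))⁻¹) * (ENNReal.ofReal (C₁ * (8 * D / σ) ^ d) *
          (ENNReal.ofReal (C₂ * c ^ (d + 1)) * Z) ^ (1 / ((d : ℝ) + 1))) := by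
        gcongr
    _ = ENNReal.ofReal ((c ^ (d + 1))⁻¹) * (ENNReal.ofReal (C₁ * (8 * D / σ) ^ d) *
          (ENNReal.ofReal (C₂ ^ (1 / ((d : ℝ) + 1)) * c) * Z ^ (1 / ((d : ℝ) + 1)))) := by
        congr 2
        rw [ENNReal.mul_rpow_of_nonneg _ _ (by positivity), ENNReal.ofReal_rpow_of_pos (by positivity)]
        congr 2
        rw [Real.mul_rpow hC₂.le (by positivity)]
        congr 1
        rw [← Nat.cast_add_one, one_div, Real.pow_rpow_inv_natCast hc0.le (by omega)]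
    _ = ENNReal.ofReal ((c ^ (d + 1))⁻¹ * ((C₁ * (8 * D / σ) ^ d) *
          (C₂ ^ (1 / ((d : ℝ) + 1)) * c))) * Z ^ (1 / ((d : ℝ) + 1)) := by
        rw [ENNReal.ofReal_mul (p := (c ^ (d + 1))⁻¹) (by positivity),
          ENNReal.ofReal_mul (p := C₁ * (8 * D / σ) ^ d) (by positivity)]
        simp only [mul_assoc]
    _ = _ := by
        congr 2
        have h7 : (c ^ (d + 1))⁻¹ * c = (2 * d) ^ d * N ^ (2 * d) := by
          rw [pow_succ, mul_inv, mul_assoc, inv_mul_cancel₀ hc0.ne', mul_one, hc, one_div, inv_pow,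
            inv_inv, mul_pow (2 * (d : ℝ)), ← pow_mul]
        calc (c ^ (d + 1))⁻¹ * ((C₁ * (8 * D / σ) ^ d) * (C₂ ^ (1 / ((d : ℝ) + 1)) * c))
            = C₁ * (8 * D / σ) ^ d * C₂ ^ (1 / ((d : ℝ) + 1)) * ((c ^ (d + 1))⁻¹ * c) := by ring
          _ = _ := by rw [h7]; ring

end Q87.KX
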