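import Pool.Agent.Q87.KX.Rank

set_option autoImplicit false
set_option maxHeartbeats 1000000

/-! Boxes and functions of low multiscale rank: conclusions. -/

open MeasureTheory Set Metric
open scoped ENNReal NNReal

namespace Q87.KX

open Q85.ZE (Sp tube idx cells cell)
open Q85.ZR (kakeyaMax maxInt cellFun LowRank RankLE FewZooms)
open Pool.Agent.H810R3.Tub Pool.Agent.W772

variable {d : ℕ}

theorem Fb_int_split {ι : Type} [Fintype ι] (N : ℝ) (ω : ι → Vec d) (f : ι → Fin d → Space d)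
    (a : ι → Space d) {t : ℝ} (ht : 0 ≤ t) :
    ∫⁻ y, Fb N ω f a y ^ (1 + t) =
      ∑ i, ∫⁻ y in box N (nor (ω i)) (f i) (a i), Fb N ω f a y ^ t := by
  have hFm := Fb_measurable N ω f a
  have hBm : ∀ i, MeasurableSet (box N (nor (ω i)) (f i) (a i)) := fun i =>
    (box_closed _ _ _ _).measurableSet
  calc ∫⁻ y, Fb N ω f a y ^ (1 + t)
      = ∫⁻ y, ∑ i, (box N (nor (ω i)) (f i) (a i)).indicator
          (fun y => Fb N ω f a y ^ t) y := by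
        refine lintegral_congr fun y => ?_
        rw [ENNReal.rpow_add_of_nonneg _ _ zero_le_one ht, ENNReal.rpow_one]
        conv_lhs => rw [Fb]
        rw [Finset.sum_mul]
        refine Finset.sum_congr rfl fun i _ => ?_
        by_cases h : y ∈ box N (nor (ω i)) (f i) (a i)
        · rw [indicator_of_mem h, indicator_of_mem h, one_mul]
          rfl
        · rw [indicator_of_notMem h, indicator_of_notMem h, zero_mul]
    _ = ∑ i, ∫⁻ y in box N (nor (ω i)) (f i) (a i), Fb N ω f a y ^ t := by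
        rw [lintegral_finsetSum _ fun i _ => (hFm.pow_const _).indicator (hBm i)]
        refine Finset.sum_congr rfl fun i _ => ?_
        rw [lintegral_indicator (hBm i)]

/-- solving the inequality `I ≤ X (Y I)^(1/(d+1))` -/
theorem solve_ineq (hd : 1 ≤ d) {I X Y : ℝ≥0∞} (hI : I ≠ ∞)
    (h : I ≤ X * (Y * I) ^ (1 / ((d : ℝ) + 1))) : I ≤ (X ^ (d + 1) * Y) ^ (1 / (d : ℝ)) := by
  have hd0 : (0 : ℝ) < d := by exact_mod_cast hd
  rcases eq_or_ne I 0 with h0 | h0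
  · rw [h0]; exact zero_le
  have h1 : I ^ (d + 1) ≤ X ^ (d + 1) * Y * I := by
    calc I ^ (d + 1) ≤ (X * (Y * I) ^ (1 / ((d : ℝ) + 1))) ^ (d + 1) := pow_le_pow_left' h _
      _ = X ^ (d + 1) * ((Y * I) ^ (1 / ((d : ℝ) + 1))) ^ (d + 1) := mul_pow _ _ _
      _ = X ^ (d + 1) * (Y * I) := by
          congr 1
          rw [← ENNReal.rpow_natCast, ← ENNReal.rpow_mul]
          push_cast
          rw [one_div_mul_cancel (by positivity), ENNReal.rpow_one]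
      _ = _ := by ring
  rw [pow_succ, ENNReal.mul_le_mul_iff_left h0 hI] at h1
  calc I = (I ^ d) ^ (1 / (d : ℝ)) := by
        rw [← ENNReal.rpow_natCast, ← ENNReal.rpow_mul, mul_one_div_cancel hd0.ne', ENNReal.rpow_one]
    _ ≤ _ := ENNReal.rpow_le_rpow h1 (by positivity)

/-- the integral bound for the multiplicity function -/
theorem rank_int (d b : ℕ) (hd : 1 ≤ d) (hb : 2 ≤ b) {ε : ℝ} (hε : 0 < ε) {σ D : ℝ} (hσ : 0 < σ)
    (hσ1 : σ ≤ 1) (hD : 1 ≤ D) :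
    ∃ (E : ℝ) (A : ℕ), 0 < E ∧ ∀ k : ℕ, 1 ≤ k → ∀ N : ℝ, (b : ℝ) ^ k ≤ N → N ≤ D * (b : ℝ) ^ k →
    ∀ (ι : Type) [Fintype ι] (ω : ι → Vec d), (∀ i, ‖ω i‖ ≤ 1) →
    (∀ i j, i ≠ j → σ / N ≤ ‖ω i - ω j‖) → ∀ (f : ι → Fin d → Space d),
    (∀ i, Orthonormal ℝ (Fin.cons (nor (ω i)) (f i) : Fin (d + 1) → Space d)) →
    ∀ (a : ι → Space d) (U : Space d ≃ₗᵢ[ℝ] Sp (d + 1)) (r : ℕ), 1 ≤ r →
    ∀ φ : (Fin (d + 1) → ℤ) → ℝ, LowRank b k r φ → ∀ Λ : ℝ, 1 ≤ Λ →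
    (∀ y, Fb N ω f a y ≤ cellFun (2 * d * N ^ 2 / (b : ℝ) ^ k) φ (U y) ^ d) →
    (∫⁻ x, cellFun (2 * d * N ^ 2 / (b : ℝ) ^ k) φ x ^ (d + 1) ≤
      ENNReal.ofReal Λ * ∫⁻ y, Fb N ω f a y ^ (1 + 1 / (d : ℝ))) →
    ∫⁻ y, Fb N ω f a y ^ (1 + 1 / (d : ℝ)) ≤
      ENNReal.ofReal (E * (N ^ ε * (r : ℝ) ^ A * Λ) ^ (1 / (d : ℝ)) * N ^ (2 * (d + 1))) := by
  obtain ⟨C, A, hC, h⟩ := boxes_int d b hd hb hε hσ hσ1 hD
  have hd0 : (0 : ℝ) < d := by exact_mod_cast hd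
  refine ⟨(C ^ (d + 1)) ^ (1 / (d : ℝ)), A, by positivity, ?_⟩
  intro k hk N hN1 hN2 ι _ ω hω hsep f hf a U r hr φ hφ Λ hΛ hF hint
  have hb1 : (1 : ℝ) < b := by exact_mod_cast (by omega : 1 < b)
  have hbk : (1 : ℝ) < (b : ℝ) ^ k := one_lt_pow₀ hb1 (by omega)
  have hN : 1 ≤ N := by linarith
  have hN0 : 0 < N := by linarith
  have h1 := h k hk N hN1 hN2 ι ω hω hsep f hf a U r hr φ hφ
  set s : ℝ := 2 * d * N ^ 2 / (b : ℝ) ^ k with hs
  set I : ℝ≥0∞ := ∫⁻ y, Fb N ω f a y ^ (1 + 1 / (d : ℝ)) with hI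
  have hIt : I ≠ ∞ := by
    have h2 : I ≤ ∫⁻ y, ((Fintype.card ι : ℝ≥0∞) ^ (1 / (d : ℝ))) * Fb N ω f a y := by
      refine lintegral_mono fun y => ?_
      rw [ENNReal.rpow_add_of_nonneg _ _ zero_le_one (by positivity), ENNReal.rpow_one, mul_comm]
      exact mul_le_mul' (ENNReal.rpow_le_rpow (Fb_le N ω f a y) (by positivity)) le_rfl
    rw [lintegral_const_mul' _ _ (ENNReal.rpow_ne_top_of_nonneg (by positivity)
      (ENNReal.natCast_ne_top _)), Fb_int hN hf a] at h2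
    refine (lt_of_le_of_lt h2 (ENNReal.mul_lt_top ?_ ENNReal.ofReal_lt_top)).ne
    exact (ENNReal.rpow_ne_top_of_nonneg (by positivity) (ENNReal.natCast_ne_top _)).lt_top
  have h2 : I ≤ ∑ i, ∫⁻ y in box N (nor (ω i)) (f i) (a i), cellFun s φ (U y) := by
    rw [hI, Fb_int_split N ω f a (t := 1 / (d : ℝ)) (by positivity)]
    refine Finset.sum_le_sum fun i _ => lintegral_mono fun y => ?_
    calc Fb N ω f a y ^ (1 / (d : ℝ)) ≤ (cellFun s φ (U y) ^ d) ^ (1 / (d : ℝ)) :=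
          ENNReal.rpow_le_rpow (hF y) (by positivity)
      _ = cellFun s φ (U y) := by
          rw [← ENNReal.rpow_natCast, ← ENNReal.rpow_mul, mul_one_div_cancel hd0.ne',
            ENNReal.rpow_one]
  have h3 : I ≤ ENNReal.ofReal (C * N ^ (2 * d)) *
      (ENNReal.ofReal (N ^ ε * (r : ℝ) ^ A * Λ) * I) ^ (1 / ((d : ℝ) + 1)) := by
    refine h2.trans (h1.trans ?_)
    refine mul_le_mul' le_rfl (ENNReal.rpow_le_rpow ?_ (by positivity))
    rw [ENNReal.ofReal_mul (q := Λ) (by positivity), mul_assoc]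
    exact mul_le_mul' le_rfl hint
  have h4 := solve_ineq hd hIt h3
  refine h4.trans (le_of_eq ?_)
  rw [← ENNReal.ofReal_pow (by positivity), ← ENNReal.ofReal_mul (by positivity),
    ENNReal.ofReal_rpow_of_nonneg (by positivity) (by positivity)]
  congr 1
  rw [mul_pow, Real.mul_rpow (by positivity) (by positivity), Real.mul_rpow (by positivity)
    (by positivity)]
  have h5 : ((N ^ (2 * d)) ^ (d + 1)) ^ (1 / (d : ℝ)) = N ^ (2 * (d + 1)) := by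
    rw [← pow_mul, ← Real.rpow_natCast, ← Real.rpow_mul hN0.le, ← Real.rpow_natCast]
    congr 1
    push_cast
    field_simp
  rw [h5]
  ring

/-- sets -/
theorem sets_int (d b : ℕ) (hd : 1 ≤ d) (hb : 2 ≤ b) {ε : ℝ} (hε : 0 < ε) {σ D : ℝ} (hσ : 0 < σ)
    (hσ1 : σ ≤ 1) (hD : 1 ≤ D) :
    ∃ (C : ℝ) (A : ℕ), 0 < C ∧ ∀ k : ℕ, 1 ≤ k → ∀ N : ℝ, (b : ℝ) ^ k ≤ N → N ≤ D * (b : ℝ) ^ k →
    ∀ (ι : Type) [Fintype ι] (ω : ι → Vec d), (∀ i, ‖ω i‖ ≤ 1) →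
    (∀ i j, i ≠ j → σ / N ≤ ‖ω i - ω j‖) → ∀ (f : ι → Fin d → Space d),
    (∀ i, Orthonormal ℝ (Fin.cons (nor (ω i)) (f i) : Fin (d + 1) → Space d)) →
    ∀ (a : ι → Space d) (U : Space d ≃ₗᵢ[ℝ] Sp (d + 1)) (r : ℕ), 1 ≤ r →
    ∀ 𝒜 : Set (Fin (d + 1) → ℤ), FewZooms b k r 𝒜 →
    (∑ i, volume (box N (nor (ω i)) (f i) (a i) ∩ U ⁻¹' cells (2 * d * N ^ 2 / (b : ℝ) ^ k) 𝒜)) ^
        (d + 1) ≤
      ENNReal.ofReal (C * N ^ (2 * d * (d + 1)) * (N ^ ε * (r : ℝ) ^ A)) *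
        volume (cells (2 * d * N ^ 2 / (b : ℝ) ^ k) 𝒜) := by
  obtain ⟨C, A, hC, h⟩ := boxes_int d b hd hb hε hσ hσ1 hD
  have hd0 : (0 : ℝ) < d := by exact_mod_cast hd
  refine ⟨C ^ (d + 1), A, by positivity, ?_⟩
  intro k hk N hN1 hN2 ι _ ω hω hsep f hf a U r hr 𝒜 hZ
  have hb1 : (1 : ℝ) < b := by exact_mod_cast (by omega : 1 < b)
  have hbk : (1 : ℝ) < (b : ℝ) ^ k := one_lt_pow₀ hb1 (by omega)
  have hbk0 : (0 : ℝ) < (b : ℝ) ^ k := by linarith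
  have hN : 1 ≤ N := by linarith
  have hN0 : 0 < N := by linarith
  have hrank : LowRank b k r (𝒜.indicator fun _ => (1 : ℝ)) :=
    ⟨fun v => Set.indicator_nonneg (fun _ _ => zero_le_one) v,
      fun B => Q85.ZR.rank_zooms hr 𝒜 hZ B⟩
  have h1 := h k hk N hN1 hN2 ι ω hω hsep f hf a U r hr _ hrank
  set s : ℝ := 2 * d * N ^ 2 / (b : ℝ) ^ k with hs
  have hs0 : 0 < s := by positivity
  have hcm : MeasurableSet (cells s 𝒜) := Q85.ZE.cells_meas s 𝒜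
  rw [Q85.ZR.cellFun_ind hs0] at h1
  have h2 : ∫⁻ x, (cells s 𝒜).indicator (1 : Sp (d + 1) → ℝ≥0∞) x ^ (d + 1) =
      volume (cells s 𝒜) := by
    rw [← lintegral_indicator_one hcm]
    refine lintegral_congr fun x => ?_
    by_cases h : x ∈ cells s 𝒜
    · rw [Set.indicator_of_mem h, Pi.one_apply, one_pow]
    · rw [Set.indicator_of_notMem h, zero_pow (by omega)]
  rw [h2] at h1
  have h3 : ∀ i, ∫⁻ y in box N (nor (ω i)) (f i) (a i),
      (cells s 𝒜).indicator (1 : Sp (d + 1) → ℝ≥0∞) (U y) =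
        volume (box N (nor (ω i)) (f i) (a i) ∩ U ⁻¹' cells s 𝒜) := by
    intro i
    have hm : MeasurableSet (U ⁻¹' cells s 𝒜) := U.continuous.measurable hcm
    have h4 : (fun y => (cells s 𝒜).indicator (1 : Sp (d + 1) → ℝ≥0∞) (U y)) =
        (U ⁻¹' cells s 𝒜).indicator (1 : Space d → ℝ≥0∞) := by
      funext y
      rfl
    rw [h4, lintegral_indicator_one hm, Measure.restrict_apply hm, inter_comm]
  rw [Finset.sum_congr rfl fun i _ => h3 i] at h1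
  calc _ ≤ (ENNReal.ofReal (C * N ^ (2 * d)) * (ENNReal.ofReal (N ^ ε * (r : ℝ) ^ A) *
        volume (cells s 𝒜)) ^ (1 / ((d : ℝ) + 1))) ^ (d + 1) := pow_le_pow_left' h1 _
    _ = ENNReal.ofReal (C * N ^ (2 * d)) ^ (d + 1) * (ENNReal.ofReal (N ^ ε * (r : ℝ) ^ A) *
        volume (cells s 𝒜)) := by
        rw [mul_pow]
        congr 1
        rw [← ENNReal.rpow_natCast, ← ENNReal.rpow_mul]
        push_cast
        rw [one_div_mul_cancel (by positivity), ENNReal.rpow_one]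
    _ = _ := by
        rw [← mul_assoc, ← ENNReal.ofReal_pow (by positivity), ← ENNReal.ofReal_mul (by positivity)]
        congr 2
        rw [mul_pow, ← pow_mul]

end Q87.KX
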